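import Pool.Agent.H95.ILV.EST

/-!
# MP_de9001_an, row APX: many invariant levels with a bounded mean kernel give synthesis
-/

set_option autoImplicit false

open MeasureTheory AddCircle Filter Topology

namespace Pool.Agent.H95.ILV

open Pool.Agent.H87.Synth Pool.Agent.H23.Synth

theorem pf_APX : T_APX := by
  classical
  intro r hr
  obtain ⟨K, hK⟩ := hr
  apply synthesis_of_approx
  intro f hf _ ε hε
  have hK' : 0 ≤ |K| := abs_nonneg K
  obtain ⟨q, hq, hfq⟩ := dense_span_ex f (ε / (1 + |K|)) (by positivity)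
  have hfin := finite_coeff_of_span hq
  obtain ⟨L, hL⟩ : ∃ L : ℕ, ∀ n, coeff q n ≠ 0 → n.natAbs < L := by
    obtain ⟨B, hB⟩ := (hfin.image Int.natAbs).bddAbove
    exact ⟨B + 1, fun n hn => Nat.lt_succ_of_le (hB ⟨n, hn, rfl⟩)⟩
  obtain ⟨M, lam, hM, hlam, hnorm⟩ := hK L
  have hM0 : (0 : ℝ) < M := by exact_mod_cast hM
  have hMc : (M : ℂ) ≠ 0 := by
    exact_mod_cast hM0.ne'
  set k : L1 := (1 / (M : ℂ)) • ∑ j ∈ Finset.range M, DK (lam j) 0 with hkdef
  have hk : ‖k‖ ≤ |K| := by
    rw [hkdef, norm_smul, norm_div, norm_one, Complex.norm_natCast, one_div, inv_mul_le_iff₀ hM0]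
    refine hnorm.trans ?_
    rw [mul_comm]
    gcongr
    exact le_abs_self K
  have hkc : ∀ n, coeff k n = (1 / (M : ℂ)) *
      ∑ j ∈ Finset.range M, (if n.natAbs < lam j then 1 else 0) := by
    intro n
    rw [hkdef, coeff_smul, coeff_sum]
    congr 1
    refine Finset.sum_congr rfl fun j _ => ?_
    rw [coeff_DK _ _ (Or.inl rfl)]
    by_cases h : n.natAbs < lam j
    · rw [if_pos h, if_pos (by omega)]
    · rw [if_neg h, if_neg (by omega)]
  have hk1 : ∀ n : ℤ, n.natAbs < L → coeff k n = 1 := by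
    intro n hn
    rw [hkc, Finset.sum_congr rfl fun j hj => if_pos
      (lt_of_lt_of_le hn (hlam j (Finset.mem_range.1 hj)).2), Finset.sum_const, Finset.card_range,
      nsmul_eq_mul, mul_one]
    field_simp
  -- support
  let N : ℕ := ∑ j ∈ Finset.range M, lam j
  have hkN : ∀ n : ℤ, coeff k n ≠ 0 → n ∈ Finset.Icc (-(N : ℤ)) N := by
    intro n hn
    by_contra hout
    apply hn
    rw [hkc, Finset.sum_eq_zero, mul_zero]
    intro j hj
    rw [if_neg]
    intro hlt
    apply hout
    have h1 : lam j ≤ N := Finset.single_le_sum (f := lam) (fun _ _ => Nat.zero_le _) hj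
    rw [Finset.mem_Icc]
    omega
  let c : ℤ →₀ ℂ := Finsupp.onFinset (Finset.Icc (-(N : ℤ)) N)
    (fun n => coeff f n * coeff k n) (fun n hn => hkN n (right_ne_zero_of_mul hn))
  have hcv : ∀ n, c n = coeff f n * coeff k n := fun n => rfl
  refine ⟨c, ?_, ?_⟩
  · intro m n hmn
    rw [hcv, hcv]
    have h1 : coeff f m = coeff f n := hf m n hmn
    rw [h1, hkc, hkc]
    congr 2
    refine Finset.sum_congr rfl fun j hj => ?_
    have := (hlam j (Finset.mem_range.1 hj)).1 m n hmn
    simp only [this]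
  · have hconv : conv f k = Finsupp.linearCombination ℂ ex c := by
      apply ext_coeff
      intro n
      rw [coeff_conv, coeff_linComb, hcv]
    change ‖f - Finsupp.linearCombination ℂ ex c‖ < ε
    rw [← hconv]
    have hqk : conv q k = q := by
      apply ext_coeff
      intro n
      rw [coeff_conv]
      by_cases h : coeff q n = 0
      · rw [h, zero_mul]
      · rw [hk1 n (hL n h), mul_one]
    have hsub : conv f k = conv (f - q) k + q := by
      conv_rhs => rw [← hqk]
      apply ext_coeff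
      intro n
      rw [coeff_add, coeff_conv, coeff_conv, coeff_conv, coeff_sub, coeff_conv]
      by_cases h : coeff q n = 0
      · rw [h]; ring
      · rw [hk1 n (hL n h)]; ring
    have e : f - conv f k = (f - q) - conv (f - q) k := by
      rw [hsub]; abel
    rw [e]
    calc ‖(f - q) - conv (f - q) k‖ ≤ ‖f - q‖ + ‖conv (f - q) k‖ := norm_sub_le _ _
      _ ≤ ‖f - q‖ + ‖f - q‖ * |K| := by
        gcongr
        exact (norm_conv_le _ _).trans (by gcongr)
      _ = (1 + |K|) * ‖f - q‖ := by ring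
      _ < (1 + |K|) * (ε / (1 + |K|)) := by gcongr
      _ = ε := by field_simp

end Pool.Agent.H95.ILV
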