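import Pool.Agent.H95.ILV.EST
import Pool.Agent.H95.ILV.APX
import Pool.Agent.H1.ILV.KB
import Pool.Agent.H1.ILV.L2E
import Pool.Agent.H1.ILV.PLR
import Pool.Agent.H10.ILV.KA
import Pool.Agent.H10.ILV.PKN
import Pool.Agent.H11.ILV.FLO
import Pool.Agent.H11.ILV.L4
import Pool.Agent.H24.ILV.GAD
import Pool.Agent.H35.ILV.SIA
import Pool.Agent.H38.ILV.MAIN
import Pool.Agent.H38.ILV.MOD
import Pool.Agent.H38.ILV.MSR
import Pool.Agent.H38.ILV.NEG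
import Pool.Agent.H38.ILV.REL
import Pool.Agent.H38.ILV.SHL
import Pool.Agent.H38.ILV.VPC
import Pool.Agent.H43.ILV.GEL
import Pool.Agent.H43.ILV.HBN
import Pool.Agent.H43.ILV.KF
import Pool.Agent.H46.ILV.REG
import Pool.Agent.H48.ILV.CNT
import Pool.Agent.H49.ILV.KC
import Pool.Agent.H50.ILV.PAR
import Pool.Agent.H54.ILV.KD
import Pool.Agent.H54.ILV.KE
import Pool.Agent.H59.ILV.ALT
import Pool.Agent.H59.ILV.FNX
import Pool.Agent.H59.ILV.LBD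
import Pool.Agent.H6.ILV.SIB
import Pool.Agent.H6.ILV.SIC
import Pool.Agent.H60.ILV.VPN
import Pool.Agent.H69.ILV.DST
import Pool.Agent.H69.ILV.TRN
import Pool.Agent.H7.ILV.FEX
import Pool.Agent.H7.ILV.KG
import Pool.Agent.H76.ILV.FWI
import Pool.Agent.H76.ILV.SUF
import Pool.Agent.H81.ILV.KH
import Pool.Agent.H81.ILV.LVS
import Pool.Agent.H89.ILV.GEO
import Pool.Agent.H89.ILV.L1L
import Pool.Agent.H89.ILV.L2B

/-!
# MP_de9001_an, invariant levels: assembly of the rows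
-/

set_option autoImplicit false

namespace Pool.Agent.H95.ILV

theorem a_FWI : T_FWI := H76.ILV.pf_FWI
theorem a_FLO : T_FLO := H11.ILV.pf_FLO
theorem a_SUF : T_SUF := H76.ILV.pf_SUF
theorem a_L2B : T_L2B := H89.ILV.pf_L2B a_FWI
theorem a_L2E : T_L2E := H1.ILV.pf_L2E a_FWI
theorem a_L4 : T_L4 := H11.ILV.pf_L4 a_FWI
theorem a_L1L : T_L1L := H89.ILV.pf_L1L a_L2E a_L4
theorem a_LBD : T_LBD := H59.ILV.pf_LBD a_L1L a_SUF
theorem a_PAR : T_PAR := H50.ILV.pf_PAR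
theorem a_MOD : T_MOD := H38.ILV.pf_MOD
theorem a_ALT : T_ALT := H59.ILV.pf_ALT
theorem a_VPC : T_VPC := H38.ILV.pf_VPC
theorem a_VPN : T_VPN := H60.ILV.pf_VPN a_MOD a_VPC
theorem a_EST : T_EST := pf_EST a_LBD a_PAR a_VPC
theorem a_GAD : T_GAD := H24.ILV.pf_GAD
theorem a_FEX : T_FEX := H7.ILV.pf_FEX a_MOD a_ALT a_VPC a_VPN
theorem a_HBN : T_HBN := H43.ILV.pf_HBN
theorem a_REL : T_REL := H38.ILV.pf_REL
theorem a_GEL : T_GEL := H43.ILV.pf_GEL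
theorem a_FNX : T_FNX := H59.ILV.pf_FNX a_FEX a_GEL
theorem a_PLR : T_PLR := H1.ILV.pf_PLR a_GEL
theorem a_REG : T_REG := H46.ILV.pf_REG a_EST a_VPN a_PLR a_GEL
theorem a_TRN : T_TRN := H69.ILV.pf_TRN a_PLR a_GEL
theorem a_DST : T_DST := H69.ILV.pf_DST a_REG a_TRN a_PLR a_GEL
theorem a_NEG : T_NEG := H38.ILV.pf_NEG a_GAD a_FNX a_DST a_REL a_GEL a_HBN
theorem a_KA : T_KA := H10.ILV.pf_KA
theorem a_KB : T_KB := H1.ILV.pf_KB
theorem a_KC : T_KC := H49.ILV.pf_KC a_KA a_KB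
theorem a_KD : T_KD := H54.ILV.pf_KD a_KA
theorem a_KE : T_KE := H54.ILV.pf_KE a_KA a_KB a_KC
theorem a_KF : T_KF := H43.ILV.pf_KF a_KA a_KB a_KC a_KE
theorem a_KG : T_KG := H7.ILV.pf_KG a_KA a_KE
theorem a_KH : T_KH := H81.ILV.pf_KH a_KA a_KC a_KE
theorem a_GEO : T_GEO := H89.ILV.pf_GEO a_KA a_KC a_KD a_KE a_KF a_KG
theorem a_MSR : T_MSR := H38.ILV.pf_MSR a_FWI a_FLO
theorem a_SHL : T_SHL := H38.ILV.pf_SHL a_FLO a_MSR
theorem a_PKN : T_PKN := H10.ILV.pf_PKN a_L2B a_SHL a_MSR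
theorem a_CNT : T_CNT := H48.ILV.pf_CNT
theorem a_LVS : T_LVS := H81.ILV.pf_LVS a_PKN a_CNT
theorem a_APX : T_APX := pf_APX
theorem a_SIA : T_SIA := H35.ILV.pf_SIA a_VPC a_VPN
theorem a_SIB : T_SIB := H6.ILV.pf_SIB a_SIA
theorem a_SIC : T_SIC := H6.ILV.pf_SIC a_SIB a_VPC a_VPN
theorem a_MAIN : T_MAIN := H38.ILV.pf_MAIN a_LVS a_APX a_NEG a_GEO a_KH a_REL a_SIC

end Pool.Agent.H95.ILV
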