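import Pool.Agent.H87.Synth.Neg
import Pool.Agent.H23.Synth.Basic
import Pool.Agent.H23.Synth.Leb

/-!
# MP_de9001_an, invariant levels: definitions

`M` is an invariant level of an equivalence relation on the integers if the set of the integers of
absolute value less than `M` is a union of classes. How dense must the invariant levels be for the
relation to have the synthesis property?
-/

set_option autoImplicit false

open MeasureTheory AddCircle Filter Topology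

namespace Pool.Agent.H95.ILV

open Pool.Agent.H87.Synth Pool.Agent.H23.Synth

noncomputable section

/-- `M` is an invariant level of `r`: the set of the integers of absolute value less than `M` is a
union of classes. -/
def Inv (r : Setoid ℤ) (M : ℕ) : Prop := ∀ m n : ℤ, r m n → (m.natAbs < M ↔ n.natAbs < M)

/-- The Fejer weight. -/
def FW (n : ℕ) (x : Circ) : ℝ :=
  (1 / (n : ℝ)) * ‖∑ a ∈ Finset.range n, (fourier (a : ℤ) x : ℂ)‖ ^ 2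

/-- An exponential sum. -/
def ES {ι : Type} (s : Finset ι) (ν : ι → ℤ) (g : ι → ℂ) (x : Circ) : ℂ :=
  ∑ a ∈ s, g a * (fourier (ν a) x : ℂ)

/-- Only trivial additive quadruples among the frequencies, with gap `n`. -/
def Quad {ι : Type} (s : Finset ι) (ν : ι → ℤ) (τ : ι → ι) (n : ℕ) : Prop :=
  (∀ a ∈ s, τ a ∈ s ∧ τ a ≠ a ∧ τ (τ a) = a) ∧
  ∀ a ∈ s, ∀ b ∈ s, ∀ c ∈ s, ∀ d ∈ s, |ν a + ν b - ν c - ν d| < (n : ℤ) →
    (a = c ∧ b = d) ∨ (a = d ∧ b = c) ∨ (b = τ a ∧ d = τ c)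

/-- Sign of a Boolean. -/
def sg (e : Bool) : ℤ := if e then 1 else -1

/-- The levels `κ j`, `j < M`, have only trivial signed additive quadruples, with gap `2 ^ T`. -/
def Gap (T M : ℕ) (κ : ℕ → ℕ) : Prop :=
  ∀ a b c d : ℕ, a < M → b < M → c < M → d < M → ∀ e1 e2 e3 e4 : Bool,
    |sg e1 * κ a + sg e2 * κ b - sg e3 * κ c - sg e4 * κ d| < (2 : ℤ) ^ T →
      (a = c ∧ e1 = e3 ∧ b = d ∧ e2 = e4) ∨ (a = d ∧ e1 = e4 ∧ b = c ∧ e2 = e3) ∨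
      (b = a ∧ e2 = !e1 ∧ d = c ∧ e4 = !e3)

/-- The Dirichlet kernel of the frequencies `k` with `|2 k + π| < 2 κ`, for `π = 0, 1`. -/
def DK (κ : ℕ) (π : ℤ) : L1 := ∑ k ∈ Finset.Ico (-(κ : ℤ) + 1 - π) (κ : ℤ), ex k

/-- The kernel of de la Vallee Poussin: coefficients `1` up to `a`, linear to `0` at `a + l`. -/
def VP (a l : ℕ) : L1 :=
  (((a + l : ℕ) : ℂ) / (l : ℂ)) • fejerK (a + l - 1) - ((a : ℂ) / (l : ℂ)) • fejerK (a - 1)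

/-- Its coefficients. -/
def tz (a l : ℕ) (n : ℤ) : ℝ := max 0 (min 1 (((a : ℝ) + l - |(n : ℝ)|) / l))

/-- The relation with the classes: level sets of `F` in the blocks between consecutive levels. -/
def rel (F : ℤ → ℂ) (L : Set ℕ) : Setoid ℤ where
  r m n := F m = F n ∧ ∀ M ∈ L, (m.natAbs < M ↔ n.natAbs < M)
  iseqv := by
    refine ⟨fun m => ⟨rfl, fun _ _ => Iff.rfl⟩, fun h => ⟨h.1.symm, fun M hM => (h.2 M hM).symm⟩,
      fun h k => ⟨h.1.trans k.1, fun M hM => (h.2 M hM).trans (k.2 M hM)⟩⟩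

/-- The beginning of the `i`-th transition block; `κ i j`, `j < M i`, are (half of) the levels of
region `i`, between the transition blocks `i` and `i + 1`. -/
def Bd (M : ℕ → ℕ) (κ : ℕ → ℕ → ℕ) : ℕ → ℕ
  | 0 => 0
  | i + 1 => 2 * κ i (M i - 1)

/-- The set of all levels. -/
def Lev (M : ℕ → ℕ) (κ : ℕ → ℕ → ℕ) : Set ℕ := {N | ∃ i j, j < M i ∧ N = 2 * κ i j}

/-- The requirements on the levels. -/
structure Geo (c : ℕ) (T M u : ℕ → ℕ) (κ : ℕ → ℕ → ℕ) : Prop where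
  t2 : ∀ i, 2 ≤ T i
  m1 : ∀ i, 1 ≤ M i
  k1 : ∀ i, 1 ≤ κ i 0
  mono : ∀ i j, j + 1 < M i → κ i j < κ i (j + 1)
  gap : ∀ i, Gap (T i) (M i) (κ i)
  u2 : ∀ i, 2 ≤ u i
  step : ∀ i, Bd M κ i + 5 * u i ≤ 2 * κ i 0
  vp : ∀ i, Bd M κ i + 4 * u i ≤ 2 ^ (i + c) * u i
  gd : ∀ k, 2 ^ (6 * k + 3) ≤ u (2 ^ (k + 1) - 1)
  sm : Summable fun i : ℕ => ((i : ℝ) + 1) ^ 3 * (√(M i) / T i)

/-- The plateaus and the gadgets of `f`. -/
structure Pla (b d P : ℕ → ℕ) (s : ℕ → ℕ → ℤ) (f : L1) : Prop where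
  pl : ∀ (k : ℕ) (n : ℤ), (k = 0 ∨ b (k - 1) + 4 * d (k - 1) ≤ n.natAbs) →
    n.natAbs ≤ b k + d k → coeff f n = (1 / 3) ^ k * (-1) ^ n
  ga : ∀ k a : ℕ, a < P k → coeff f ((b k : ℤ) + 2 * d k + a) = (1 / 3) ^ (k + 1) * (s k a : ℂ)

/-- A gadget of size `2 ^ (6 k + 3)`. -/
structure Gad (C : ℝ) (k : ℕ) (s : ℕ → ℤ) (γ : ℕ → ℂ) : Prop where
  val : ∀ a, s a = 3 ∨ s a = 1 ∨ s a = -1 ∨ s a = -3
  norm : ‖(∑ a ∈ Finset.range (2 ^ (6 * k + 3)), (s a : ℂ) • ex (a : ℤ) : L1)‖ ≤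
    C * 2 ^ k * ((k : ℝ) + 1) ^ 2
  sum : ∀ F : ℤ → ℂ, ∑ a ∈ Finset.range (2 ^ (6 * k + 3)), γ a * F (s a) =
    F 3 - 3 * F 1 + 3 * F (-1) - F (-3)
  bd : ∀ (h : L1) (b : ℤ), ‖∑ a ∈ Finset.range (2 ^ (6 * k + 3)), γ a * coeff h (b + a)‖ ≤
    C * (1 / 8) ^ k * ‖h‖

/-- The trigonometric polynomial with the coefficients `c`. -/
def poly (c : ℤ →₀ ℂ) : L1 := Finsupp.linearCombination ℂ ex c

/-! ## The explicit levels -/

def Tt (i : ℕ) : ℕ := 2 ^ (i + 8)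
def mm (i : ℕ) : ℕ := 2 ^ (i + 23) / (i + 1) ^ 10 + 1
def Nn (i : ℕ) : ℕ := 2 ^ (2 * i + 34)
def QN (i : ℕ) : ℕ := 4 * Nn i ^ 2 + 1
def Hh (i : ℕ) : ℕ := 2 ^ (6 * i + 110)
def bb (i j : ℕ) : ℕ := (j + 1) ^ 2 + QN i * (j + 1)
def aa (i j : ℕ) : ℕ := 2 ^ (j / mm i) * (mm i + j % mm i)
def kk (i j : ℕ) : ℕ := 2 ^ Tt i * (Hh i * aa i j + bb i j)

/-- The first `j` with `kk (i + 1) 0 ≤ kk i j`. -/
def JJ (i : ℕ) : ℕ := sInf {j | kk (i + 1) 0 ≤ kk i j}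

def MM (i : ℕ) : ℕ := JJ i - 1

def uu (i : ℕ) : ℕ := (2 * kk i 0 - Bd MM kk i) / 5

/-! ## Cells for the positive part -/

/-- Left end of the `j`-th cell: `ψ` cells in each octave, starting at `2 ^ S`. -/
def cl (S ψ j : ℕ) : ℝ := 2 ^ (S + j / ψ) * (1 + ((j % ψ : ℕ) : ℝ) / ψ)

/-- Pairs of levels `≥ 2 ^ t` at distance less than `2 ^ t`. -/
def prs (M t : ℕ) (lam : ℕ → ℕ) : ℝ := ∑ i ∈ Finset.range M, ∑ j ∈ Finset.range M,
  if 2 ^ t ≤ lam i ∧ 2 ^ t ≤ lam j ∧ |(lam i : ℤ) - lam j| < 2 ^ t then (1 : ℝ) else 0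

/-- Shells. -/
def Xs (t : ℕ) : Set Circ := {x | 1 / 2 ^ (t + 1) < rho x ∧ rho x ≤ 1 / 2 ^ t}

/-- `E` is a Sidon set: trigonometric polynomials with frequencies in `E` have absolutely summable
coefficients, with a bound by the supremum norm. -/
def Sidon (E : Set ℤ) : Prop := ∃ C : ℝ, ∀ (c : ℤ →₀ ℂ) (B : ℝ), (∀ n ∈ c.support, n ∈ E) →
  (∀ x : Circ, ‖∑ n ∈ c.support, c n * (fourier n x : ℂ)‖ ≤ B) → ∑ n ∈ c.support, ‖c n‖ ≤ C * B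

/-- Many invariant levels with bounded mean kernel. -/
def Good (r : Setoid ℤ) : Prop := ∃ K : ℝ, ∀ L : ℕ, ∃ (M : ℕ) (lam : ℕ → ℕ), 1 ≤ M ∧
  (∀ j < M, Inv r (lam j) ∧ L ≤ lam j) ∧ ‖∑ j ∈ Finset.range M, DK (lam j) 0‖ ≤ K * M

end

end Pool.Agent.H95.ILV
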