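import Pool.Agent.H95.ILV.Targets

/-!
# MP_de9001_an, row EST: crossing a region of many levels
-/

set_option autoImplicit false

open MeasureTheory AddCircle Filter Topology

namespace Pool.Agent.H95.ILV

open Pool.Agent.H87.Synth Pool.Agent.H23.Synth

lemma tele (A : ℕ → ℂ) (J : ℕ) : ∀ M : ℕ, J ≤ M →
    ∑ j ∈ Finset.range M, (if J ≤ j then A j - A (j + 1) else 0) = A J - A M := by
  intro M
  induction M with
  | zero =>
    intro h
    obtain rfl : J = 0 := by omega
    simp
  | succ M ih =>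
    intro h
    rw [Finset.sum_range_succ]
    rcases Nat.lt_or_ge M J with hJ | hJ
    · obtain rfl : J = M + 1 := by omega
      rw [if_neg (by omega), Finset.sum_eq_zero]
      · ring
      · intro j hj
        rw [Finset.mem_range] at hj
        rw [if_neg (by omega)]
    · rw [ih hJ, if_pos hJ]
      ring

lemma abs_natAbs (n : ℤ) : |(n : ℝ)| = (n.natAbs : ℝ) := by
  rw [Nat.cast_natAbs, Int.cast_abs]

lemma tz_one {a l : ℕ} {n : ℤ} (hl : 1 ≤ l) (h : n.natAbs ≤ a) : tz a l n = 1 := by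
  unfold tz
  rw [abs_natAbs]
  have h1 : (n.natAbs : ℝ) ≤ a := by exact_mod_cast h
  have h2 : (0 : ℝ) < l := by exact_mod_cast hl
  rw [min_eq_left, max_eq_right zero_le_one]
  rw [le_div_iff₀ h2]
  linarith

lemma tz_zero {a l : ℕ} {n : ℤ} (hl : 1 ≤ l) (h : a + l ≤ n.natAbs) : tz a l n = 0 := by
  unfold tz
  rw [abs_natAbs]
  have h1 : (a : ℝ) + l ≤ n.natAbs := by exact_mod_cast h
  have h2 : (0 : ℝ) < l := by exact_mod_cast hl
  rw [max_eq_left]
  refine (min_le_right _ _).trans ?_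
  exact div_nonpos_of_nonpos_of_nonneg (by linarith) h2.le

lemma coeff_DK (κ : ℕ) (π : ℤ) (hπ : π = 0 ∨ π = 1) (k : ℤ) :
    coeff (DK κ π) k = if (2 * k + π).natAbs < 2 * κ then 1 else 0 := by
  unfold DK
  rw [coeff_sum]
  simp only [coeff_ex, Finset.sum_ite_eq', Finset.mem_Ico]
  rcases hπ with rfl | rfl
  · by_cases h : (2 * k + 0).natAbs < 2 * κ
    · rw [if_pos h, if_pos (by omega)]
    · rw [if_neg h, if_neg (by omega)]
  · by_cases h : (2 * k + 1).natAbs < 2 * κ
    · rw [if_pos h, if_pos (by omega)]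
    · rw [if_neg h, if_neg (by omega)]

theorem pf_EST (h1 : T_LBD) (h2 : T_PAR) (h3 : T_VPC) : T_EST := by
  intro h T M κ π a0 l0 a1 l1 A hT hM hπ hgap hmono hκ0 hl0 hl1 ha0 ha1 hco
  have hκ : ∀ i j, i ≤ j → j < M → κ i ≤ κ j := by
    intro i j hij
    induction j, hij using Nat.le_induction with
    | base => intro _; exact le_rfl
    | succ j _ ih =>
      intro hj
      exact (ih (by omega)).trans (hmono j hj).le
  have hκ1 : ∀ j < M, 1 ≤ κ j := fun j hj => hκ0.trans (hκ 0 j (by omega) hj)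
  have hJ : ∀ N j, j < M →
      (2 * κ j ≤ N ↔ j < ((Finset.range M).filter fun j => 2 * κ j ≤ N).card) := by
    intro N j hj
    constructor
    · intro hle
      have hsub : Finset.range (j + 1) ⊆ (Finset.range M).filter fun j => 2 * κ j ≤ N := by
        intro i hi
        rw [Finset.mem_range] at hi
        rw [Finset.mem_filter, Finset.mem_range]
        exact ⟨by omega, le_trans (by have := hκ i j (by omega) hj; omega) hle⟩
      have := Finset.card_le_card hsub
      rw [Finset.card_range] at this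
      exact this
    · intro hlt
      by_contra hle
      have hsub : ((Finset.range M).filter fun j => 2 * κ j ≤ N) ⊆ Finset.range j := by
        intro i hi
        rw [Finset.mem_filter, Finset.mem_range] at hi
        rw [Finset.mem_range]
        by_contra hij
        have := hκ j i (by omega) hi.1
        omega
      have := Finset.card_le_card hsub
      rw [Finset.card_range] at this
      omega
  have hJM : ∀ N, ((Finset.range M).filter fun j => 2 * κ j ≤ N).card ≤ M := by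
    intro N
    refine (Finset.card_filter_le _ _).trans ?_
    rw [Finset.card_range]
  have hJ0 : ∀ N, N < 2 * κ 0 → ((Finset.range M).filter fun j => 2 * κ j ≤ N).card = 0 := by
    intro N hN
    by_contra hne
    have := (hJ N 0 (by omega)).2 (by omega)
    omega
  have hJm : ∀ N, 2 * κ (M - 1) ≤ N →
      ((Finset.range M).filter fun j => 2 * κ j ≤ N).card = M := by
    intro N hN
    have := (hJ N (M - 1) (by omega)).1 hN
    have := hJM N
    omega
  have h0m : κ 0 ≤ κ (M - 1) := hκ 0 (M - 1) (by omega) (by omega)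
  set V0 := VP a0 l0 with hV0
  set V1 := VP a1 l1 with hV1
  obtain ⟨Q, hQ, hQn⟩ := h2 (conv h (V1 - V0)) π
  obtain ⟨U0, hU0, hU0n⟩ := h2 V0 π
  obtain ⟨U1, hU1, hU1n⟩ := h2 V1 π
  have hmod : ∀ k : ℤ, (2 * k + π) % 2 = π := by
    intro k
    rcases hπ with rfl | rfl <;> omega
  -- the identity
  have key : ∑ j ∈ Finset.range M, (A j - A (j + 1)) • DK (κ j) π = Q + A 0 • U0 - A M • U1 := by
    apply ext_coeff
    intro k
    have hl : coeff (∑ j ∈ Finset.range M, (A j - A (j + 1)) • DK (κ j) π) k =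
        A ((Finset.range M).filter fun j => 2 * κ j ≤ (2 * k + π).natAbs).card - A M := by
      rw [coeff_sum, ← tele A _ M (hJM _)]
      refine Finset.sum_congr rfl fun j hj => ?_
      rw [Finset.mem_range] at hj
      rw [coeff_smul, coeff_DK _ _ hπ]
      have := hJ (2 * k + π).natAbs j hj
      by_cases hc : 2 * κ j ≤ (2 * k + π).natAbs
      · rw [if_neg (by omega), if_neg (by have := this.1 hc; omega), mul_zero]
      · rw [if_pos (by omega), if_pos (by
          by_contra h'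
          exact hc (this.2 (by omega))), mul_one]
    rw [hl, coeff_sub, coeff_add, coeff_smul, coeff_smul, hQ, hU0, hU1, coeff_conv, coeff_sub,
      hV0, hV1, h3 a1 l1 _ (by omega), h3 a0 l0 _ (by omega)]
    set n : ℤ := 2 * k + π with hn
    have hnm : n % 2 = π := hmod k
    rcases Nat.lt_or_ge n.natAbs a0 with hA | hA
    · rw [tz_one (by omega) (by omega : n.natAbs ≤ a0), tz_one (by omega) (by omega),
        hJ0 _ (by omega)]
      push_cast
      ring
    rcases Nat.lt_or_ge n.natAbs (a0 + l0) with hB | hB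
    · rw [tz_one (a := a1) (by omega) (by omega), hco n hnm hA (by omega), hJ0 _ (by omega)]
      push_cast
      ring
    rcases Nat.lt_or_ge a1 n.natAbs with hC | hC
    · rw [tz_zero (a := a0) (by omega) hB, hJm _ (by omega)]
      rcases Nat.lt_or_ge n.natAbs (a1 + l1) with hD | hD
      · rw [hco n hnm hA hD, hJm _ (by omega)]
        push_cast
        ring
      · rw [tz_zero (a := a1) (by omega) hD]
        push_cast
        ring
    · rw [tz_zero (a := a0) (by omega) hB, tz_one (a := a1) (by omega) hC,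
        hco n hnm hA (by omega)]
      push_cast
      ring
  -- the two values
  have hex : ∀ a : ℕ, ∃ m : ℕ, (m = a ∨ m = a + 1) ∧ ((m : ℕ) : ℤ) % 2 = π := by
    intro a
    rcases Nat.even_or_odd' a with ⟨c, rfl | rfl⟩
    · rcases hπ with rfl | rfl
      · exact ⟨_, Or.inl rfl, by push_cast; omega⟩
      · exact ⟨_, Or.inr rfl, by push_cast; omega⟩
    · rcases hπ with rfl | rfl
      · exact ⟨_, Or.inr rfl, by push_cast; omega⟩
      · exact ⟨_, Or.inl rfl, by push_cast; omega⟩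
  have hA0 : ‖A 0‖ ≤ ‖h‖ := by
    obtain ⟨m, hm, hm2⟩ := hex a0
    have := hco (m : ℤ) hm2 (by rw [Int.natAbs_natCast]; omega) (by rw [Int.natAbs_natCast]; omega)
    rw [hJ0 _ (by rw [Int.natAbs_natCast]; omega)] at this
    rw [← this]
    exact norm_coeff_le _ _
  have hAM : ‖A M‖ ≤ ‖h‖ := by
    obtain ⟨m, hm, hm2⟩ := hex a1
    have := hco (m : ℤ) hm2 (by rw [Int.natAbs_natCast]; omega) (by rw [Int.natAbs_natCast]; omega)
    rw [hJm _ (by rw [Int.natAbs_natCast]; omega)] at this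
    rw [← this]
    exact norm_coeff_le _ _
  -- norms
  have hW : ‖V1 - V0‖ ≤ ‖V0‖ + ‖V1‖ := by
    rw [add_comm]
    exact norm_sub_le _ _
  have hup : ‖∑ j ∈ Finset.range M, (A j - A (j + 1)) • DK (κ j) π‖ ≤
      2 * (‖V0‖ + ‖V1‖) * ‖h‖ := by
    rw [key]
    have hn := norm_nonneg h
    calc ‖Q + A 0 • U0 - A M • U1‖ ≤ ‖Q + A 0 • U0‖ + ‖A M • U1‖ := norm_sub_le _ _
      _ ≤ ‖Q‖ + ‖A 0 • U0‖ + ‖A M • U1‖ := by gcongr; exact norm_add_le _ _
      _ ≤ ‖h‖ * (‖V0‖ + ‖V1‖) + ‖h‖ * ‖V0‖ + ‖h‖ * ‖V1‖ := by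
        rw [norm_smul, norm_smul]
        gcongr
        exact hQn.trans ((norm_conv_le _ _).trans (by gcongr))
      _ = 2 * (‖V0‖ + ‖V1‖) * ‖h‖ := by ring
  have hlow := h1 T M κ π (fun j => A j - A (j + 1)) hT hπ hgap hκ1
  have htel : A 0 - A M = ∑ j ∈ Finset.range M, (A j - A (j + 1)) := by
    rw [← tele A 0 M (by omega)]
    refine Finset.sum_congr rfl fun j _ => ?_
    rw [if_pos (Nat.zero_le _)]
  have hCS : ‖A 0 - A M‖ ≤ √M * √(∑ j ∈ Finset.range M, ‖A j - A (j + 1)‖ ^ 2) := by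
    rw [htel]
    refine (norm_sum_le _ _).trans ?_
    rw [← Real.sqrt_mul (Nat.cast_nonneg M)]
    refine Real.le_sqrt_of_sq_le ?_
    have h5 := Finset.sum_mul_sq_le_sq_mul_sq (Finset.range M) (fun _ => (1 : ℝ))
      (fun j => ‖A j - A (j + 1)‖)
    simp only [one_mul, one_pow, Finset.sum_const, Finset.card_range, nsmul_eq_mul,
      mul_one] at h5
    exact h5
  have hT0 : (0 : ℝ) < T := by
    have : 0 < T := by omega
    exact_mod_cast this
  have h6 : √(∑ j ∈ Finset.range M, ‖A j - A (j + 1)‖ ^ 2) ≤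
      20 / T * (‖V0‖ + ‖V1‖) * ‖h‖ := by
    have h7 : (T : ℝ) / 10 * √(∑ j ∈ Finset.range M, ‖A j - A (j + 1)‖ ^ 2) ≤
      2 * (‖V0‖ + ‖V1‖) * ‖h‖ := hlow.trans hup
    have h8 : √(∑ j ∈ Finset.range M, ‖A j - A (j + 1)‖ ^ 2) =
        10 / T * ((T : ℝ) / 10 * √(∑ j ∈ Finset.range M, ‖A j - A (j + 1)‖ ^ 2)) := by
      field_simp
    rw [h8]
    calc 10 / T * ((T : ℝ) / 10 * √(∑ j ∈ Finset.range M, ‖A j - A (j + 1)‖ ^ 2))
        ≤ 10 / T * (2 * (‖V0‖ + ‖V1‖) * ‖h‖) := by gcongr
      _ = 20 / T * (‖V0‖ + ‖V1‖) * ‖h‖ := by ring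
  calc ‖A 0 - A M‖ ≤ √M * √(∑ j ∈ Finset.range M, ‖A j - A (j + 1)‖ ^ 2) := hCS
    _ ≤ √M * (20 / T * (‖V0‖ + ‖V1‖) * ‖h‖) := by gcongr
    _ = 20 * √M / T * (‖V0‖ + ‖V1‖) * ‖h‖ := by ring

end Pool.Agent.H95.ILV
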