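import Pool.Agent.H95.ILV.Defs

/-!
# MP_de9001_an, invariant levels: targets
-/

set_option autoImplicit false

open MeasureTheory AddCircle Filter Topology

namespace Pool.Agent.H95.ILV

open Pool.Agent.H87.Synth Pool.Agent.H23.Synth

noncomputable section

/-! ## A. Fejer weights -/

def T_FWI : Prop := ∀ (n : ℕ) (m : ℤ), 1 ≤ n →
  ∫ x, ((FW n x : ℝ) : ℂ) * (fourier m x : ℂ) ∂(haarAddCircle : Measure Circ) =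
    ((max 0 (1 - |(m : ℝ)| / n) : ℝ) : ℂ)

def T_FLO : Prop := ∀ (n : ℕ) (x : Circ), 1 ≤ n → (n : ℝ) * rho x ≤ 1 → (n : ℝ) / 4 ≤ FW n x

def T_SUF : Prop := ∀ (T : ℕ) (x : Circ), rho x * ∑ t ∈ Finset.range T, FW (2 ^ t) x ≤ 8

def T_L2B : Prop := ∀ (ι : Type) (s : Finset ι) (ν : ι → ℤ) (g : ι → ℂ) (n : ℕ), 1 ≤ n →
  (∀ a ∈ s, ‖g a‖ ≤ 1) →
  ∫ x, FW n x * ‖ES s ν g x‖ ^ 2 ∂(haarAddCircle : Measure Circ) ≤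
    ∑ a ∈ s, ∑ b ∈ s, if |ν a - ν b| < (n : ℤ) then (1 : ℝ) else 0

def T_L2E : Prop := ∀ (ι : Type) (s : Finset ι) (ν : ι → ℤ) (g : ι → ℂ) (n : ℕ), 1 ≤ n →
  (∀ a ∈ s, ∀ b ∈ s, a ≠ b → (n : ℤ) ≤ |ν a - ν b|) →
  ∫ x, FW n x * ‖ES s ν g x‖ ^ 2 ∂(haarAddCircle : Measure Circ) = ∑ a ∈ s, ‖g a‖ ^ 2

def T_L4 : Prop := ∀ (ι : Type) (s : Finset ι) (ν : ι → ℤ) (g : ι → ℂ) (τ : ι → ι) (n : ℕ),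
  1 ≤ n → Quad s ν τ n →
  ∫ x, FW n x * ‖ES s ν g x‖ ^ 4 ∂(haarAddCircle : Measure Circ) ≤ 3 * (∑ a ∈ s, ‖g a‖ ^ 2) ^ 2

def T_L1L : Prop := ∀ (ι : Type) (s : Finset ι) (ν : ι → ℤ) (g : ι → ℂ) (τ : ι → ι) (n : ℕ),
  1 ≤ n → Quad s ν τ n →
  ∑ a ∈ s, ‖g a‖ ^ 2 ≤ 3 * (∫ x, FW n x * ‖ES s ν g x‖ ∂(haarAddCircle : Measure Circ)) ^ 2

def T_LBD : Prop := ∀ (T M : ℕ) (κ : ℕ → ℕ) (π : ℤ) (w : ℕ → ℂ), 2 ≤ T → (π = 0 ∨ π = 1) →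
  Gap T M κ → (∀ j < M, 1 ≤ κ j) →
  (T : ℝ) / 10 * √(∑ j ∈ Finset.range M, ‖w j‖ ^ 2) ≤
    ‖∑ j ∈ Finset.range M, w j • DK (κ j) π‖

/-! ## B. Operators on L1 -/

def T_PAR : Prop := ∀ (h : L1) (π : ℤ), ∃ H : L1, (∀ k, coeff H k = coeff h (2 * k + π)) ∧
  ‖H‖ ≤ ‖h‖

def T_MOD : Prop := ∀ (h : L1) (m : ℤ), ∃ H : L1, (∀ n, coeff H n = coeff h (n - m)) ∧
  ‖H‖ ≤ ‖h‖

def T_ALT : Prop := ∀ h : L1, ∃ H : L1, (∀ n : ℤ, coeff H n = (-1) ^ n * coeff h n) ∧ ‖H‖ ≤ ‖h‖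

def T_VPC : Prop := ∀ (a l : ℕ) (n : ℤ), 1 ≤ l → coeff (VP a l) n = ((tz a l n : ℝ) : ℂ)

def T_VPN : Prop := ∀ a l k : ℕ, 1 ≤ l → a ≤ 2 ^ k * l → ‖VP a l‖ ≤ 3 + k

def T_EST : Prop := ∀ (h : L1) (T M : ℕ) (κ : ℕ → ℕ) (π : ℤ) (a0 l0 a1 l1 : ℕ) (A : ℕ → ℂ),
  2 ≤ T → 1 ≤ M → (π = 0 ∨ π = 1) → Gap T M κ → (∀ j, j + 1 < M → κ j < κ (j + 1)) →
  1 ≤ κ 0 → 2 ≤ l0 → 2 ≤ l1 → a0 + l0 ≤ 2 * κ 0 → 2 * κ (M - 1) ≤ a1 →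
  (∀ n : ℤ, n % 2 = π → a0 ≤ n.natAbs → n.natAbs < a1 + l1 →
    coeff h n = A ((Finset.range M).filter fun j => 2 * κ j ≤ n.natAbs).card) →
  ‖A 0 - A M‖ ≤ 20 * √M / T * (‖VP a0 l0‖ + ‖VP a1 l1‖) * ‖h‖

/-! ## C. The function and the relation -/

def T_GAD : Prop := ∃ C : ℝ, 0 ≤ C ∧ ∀ k : ℕ, ∃ (s : ℕ → ℤ) (γ : ℕ → ℂ), Gad C k s γ

def T_FEX : Prop := ∀ (b d P c : ℕ → ℕ) (s : ℕ → ℕ → ℤ) (G : ℕ → ℝ),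
  (∀ k, b k + 5 * d k ≤ b (k + 1)) → (∀ k, 1 ≤ d k) → (∀ k, P k ≤ d k) →
  (∀ k, b k + 3 * d k ≤ 2 ^ c k * d k) →
  (∀ k, ‖(∑ a ∈ Finset.range (P k), (s k a : ℂ) • ex (a : ℤ) : L1)‖ ≤ G k) →
  (Summable fun k : ℕ => (1 / 3 : ℝ) ^ k * c k) → (Summable fun k : ℕ => (1 / 3 : ℝ) ^ k * G k) →
  ∃ f : L1, Pla b d P s f

def T_HBN : Prop := ∀ (r : Setoid ℤ) (f : L1) (δ : ℝ), (∀ n, {m | r n m}.Finite) → f ∈ Amax r →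
  0 < δ → (∀ c : ℤ →₀ ℂ, (∀ m n, r m n → c m = c n) → δ ≤ ‖f - poly c‖) → ¬ HasSynthesis r

def T_REL : Prop := ∀ (F : ℤ → ℂ) (L : Set ℕ), (∀ N ∈ L, Inv (rel F L) N) ∧
  ((∀ K : ℕ, ∃ N ∈ L, K ≤ N) → ∀ n, {m | rel F L n m}.Finite)

/-- Elementary consequences of `Geo`. -/
def T_GEL : Prop := ∀ c T M u κ, Geo c T M u κ →
  (∀ i j j', j ≤ j' → j' < M i → κ i j ≤ κ i j') ∧
  (∀ i, 2 * κ i 0 ≤ Bd M κ (i + 1)) ∧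
  (∀ i i', i < i' → Bd M κ i + 5 * u i ≤ Bd M κ i') ∧
  (∀ i i' j, i' < i → j < M i' → 2 * κ i' j ≤ Bd M κ i) ∧
  (∀ i i' j, i ≤ i' → j < M i' → Bd M κ i + 5 * u i ≤ 2 * κ i' j) ∧
  (∀ K : ℕ, ∃ N ∈ Lev M κ, K ≤ N)

/-- The function of the construction. -/
def Fn (M u : ℕ → ℕ) (κ : ℕ → ℕ → ℕ) (s : ℕ → ℕ → ℤ) (f : L1) : Prop :=
  Pla (fun k => Bd M κ (2 ^ (k + 1) - 1)) (fun k => u (2 ^ (k + 1) - 1))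
    (fun k => 2 ^ (6 * k + 3)) s f

def T_FNX : Prop := ∀ (C : ℝ) (s : ℕ → ℕ → ℤ) (γ : ℕ → ℕ → ℂ), (∀ k, Gad C k (s k) (γ k)) →
  ∀ c T M u κ, Geo c T M u κ → ∃ f : L1, Fn M u κ s f

/-- The plateau of region `i`. -/
def T_PLR : Prop := ∀ c T M u κ s f, Geo c T M u κ → Fn M u κ s f → ∀ (i : ℕ) (n : ℤ),
  (i = 0 ∨ Bd M κ i + 4 * u i ≤ n.natAbs) → n.natAbs ≤ Bd M κ (i + 1) + u (i + 1) →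
    coeff f n = (1 / 3) ^ Nat.log 2 (i + 1) * (-1) ^ n

/-- Crossing region `i`. -/
def T_REG : Prop := ∀ c T M u κ s f, Geo c T M u κ → Fn M u κ s f → ∀ p : ℤ →₀ ℂ,
  (∀ m n, rel (coeff f) (Lev M κ) m n → p m = p n) → ∀ (i : ℕ) (n n' : ℤ), n % 2 = n' % 2 →
    Bd M κ i + 4 * u i ≤ n.natAbs → n.natAbs < 2 * κ i 0 →
    Bd M κ (i + 1) ≤ n'.natAbs → n'.natAbs < Bd M κ (i + 1) + u (i + 1) →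
    ‖p n - p n'‖ ≤ 20 * √(M i) / T i * (7 + 2 * c + 2 * i) * ‖f - poly p‖

/-- Crossing a transition block. -/
def T_TRN : Prop := ∀ (C : ℝ) (s : ℕ → ℕ → ℤ) (γ : ℕ → ℕ → ℂ), (∀ k, Gad C k (s k) (γ k)) →
  ∀ c T M u κ f, Geo c T M u κ → Fn M u κ s f → ∀ p : ℤ →₀ ℂ,
  (∀ m n, rel (coeff f) (Lev M κ) m n → p m = p n) → ∀ (i : ℕ) (n0 n1 n0' n1' : ℤ),
    n0 % 2 = 0 → n1 % 2 = 1 → n0' % 2 = 0 → n1' % 2 = 1 →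
    Bd M κ (i + 1) ≤ n0.natAbs → n0.natAbs < Bd M κ (i + 1) + u (i + 1) →
    Bd M κ (i + 1) ≤ n1.natAbs → n1.natAbs < Bd M κ (i + 1) + u (i + 1) →
    Bd M κ (i + 1) + 4 * u (i + 1) ≤ n0'.natAbs → n0'.natAbs < 2 * κ (i + 1) 0 →
    Bd M κ (i + 1) + 4 * u (i + 1) ≤ n1'.natAbs → n1'.natAbs < 2 * κ (i + 1) 0 →
    ‖p n0 - p n1‖ ≤ 3 ^ (Nat.log 2 (i + 2) - Nat.log 2 (i + 1)) * ‖p n0' - p n1'‖ +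
      (if Nat.log 2 (i + 2) = Nat.log 2 (i + 1) then 0 else C * (1 / 8) ^ Nat.log 2 (i + 1)) *
        ‖f - poly p‖

/-- The distance of `f` to the class constant polynomials is positive. -/
def T_DST : Prop := ∀ (C : ℝ) (s : ℕ → ℕ → ℤ) (γ : ℕ → ℕ → ℂ), 0 ≤ C →
  (∀ k, Gad C k (s k) (γ k)) → ∀ c T M u κ f, Geo c T M u κ → Fn M u κ s f → ∃ δ : ℝ, 0 < δ ∧
    ∀ p : ℤ →₀ ℂ, (∀ m n, rel (coeff f) (Lev M κ) m n → p m = p n) → δ ≤ ‖f - poly p‖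

def T_NEG : Prop := ∀ c T M u κ, Geo c T M u κ → ∃ F : ℤ → ℂ, ¬ HasSynthesis (rel F (Lev M κ)) ∧
  ∀ n, {m | rel F (Lev M κ) n m}.Finite

/-! ## D. The explicit levels -/

/-- Elementary bounds. -/
def T_KA : Prop := ∀ i : ℕ, 2 ^ (i + 23) ≤ (i + 1) ^ 10 * mm i ∧ mm i ≤ 2 ^ (i + 24) ∧
  ∀ j ≤ Nn i, 4 * bb i j < Hh i

/-- The steps. -/
def T_KB : Prop := ∀ i j : ℕ, aa i (j + 1) = aa i j + 2 ^ (j / mm i) ∧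
  2 ^ (j / mm i) * mm i ≤ aa i j ∧ aa i j + 2 ^ (j / mm i) ≤ 2 ^ (j / mm i) * (2 * mm i)

/-- Monotonicity and ratios. -/
def T_KC : Prop := ∀ i j : ℕ, kk i j < kk i (j + 1) ∧ (j < Nn i →
  kk i j ≤ 2 * mm i * (kk i (j + 1) - kk i j) ∧
  mm i * (kk i (j + 1) - kk i j) ≤ 2 * kk i j)

/-- The gap property. -/
def T_KD : Prop := ∀ i : ℕ, Gap (Tt i) (Nn i) (kk i)

/-- The number of levels. -/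
def T_KE : Prop := ∀ i : ℕ, 3 ≤ JJ i ∧ JJ i ≤ mm i * 2 ^ (i + 10) ∧ JJ i ≤ Nn i ∧
  kk (i + 1) 0 ≤ kk i (JJ i) ∧ ∀ j < JJ i, kk i j < kk (i + 1) 0

/-- The units. -/
def T_KF : Prop := (∀ i, Bd MM kk i + 5 * uu i ≤ 2 * kk i 0) ∧
  (∀ i, 2 ^ 2 ^ (i + 7) ≤ uu i) ∧ ∀ i, Bd MM kk i + 4 * uu i ≤ 2 ^ (i + 40) * uu i

/-- Summability. -/
def T_KG : Prop := Summable fun i : ℕ => ((i : ℝ) + 1) ^ 3 * (√(MM i) / Tt i)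

/-- The levels are dense. -/
def T_KH : Prop := ∃ x0 : ℝ, ∀ x : ℝ, x0 ≤ x → ∃ N ∈ Lev MM kk, x < N ∧
  (N : ℝ) ≤ x + x * Real.log (Real.log x) ^ 10 / Real.log x

def T_GEO : Prop := ∃ c, Geo c Tt MM uu kk

/-! ## E. The positive part -/

def T_MSR : Prop := ∀ t : ℕ, (haarAddCircle : Measure Circ).real {x | rho x ≤ 1 / 2 ^ t} ≤
  4 / 2 ^ t

def T_SHL : Prop := ∀ (ι : Type) (s : Finset ι) (ν : ι → ℤ) (g : ι → ℂ) (t : ℕ),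
  ∫ x in Xs t, ‖ES s ν g x‖ / rho x ∂(haarAddCircle : Measure Circ) ≤
    8 * √(∫ x, FW (2 ^ t) x * ‖ES s ν g x‖ ^ 2 ∂(haarAddCircle : Measure Circ))

def T_PKN : Prop := ∀ (M T : ℕ) (lam : ℕ → ℕ) (K : ℝ), (∀ j < M, 1 ≤ lam j ∧ lam j < 2 ^ T) →
  (∀ t ≤ T, prs M t lam ≤ K) →
  ‖∑ j ∈ Finset.range M, DK (lam j) 0‖ ≤ 24 * M + 8 * ((T : ℝ) + 2) * √(2 * K)

def T_CNT : Prop := ∀ (S R ψ : ℕ) (lam : ℕ → ℕ), 1 ≤ ψ →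
  (∀ j < R * ψ, cl S ψ j < lam j ∧ (lam j : ℝ) ≤ cl S ψ (j + 1)) →
  ∀ t, prs (R * ψ) t lam ≤ 3 * ((R : ℝ) * ψ) + 8 * (ψ : ℝ) ^ 2

/-- The hypothesis of the positive part. -/
def Dense (r : Setoid ℤ) (C : ℝ) : Prop := ∀ X0 : ℝ, ∃ X : ℝ, X0 ≤ X ∧ ∀ x : ℝ, X ≤ x →
  x ≤ X ^ 2 → ∃ M : ℕ, Inv r M ∧ x < M ∧ (M : ℝ) ≤ x + C * x / Real.log x

def T_LVS : Prop := ∀ (r : Setoid ℤ) (C : ℝ), 0 < C → Dense r C → Good r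

def T_APX : Prop := ∀ r : Setoid ℤ, Good r → HasSynthesis r

/-! ## F. Sidon sets -/

def T_SIA : Prop := ∀ E : Set ℤ, Sidon E → ∃ C : ℝ, 0 < C ∧ ∀ (A : Finset ℤ) (φ : ℤ → ℂ) (b : ℝ),
  (∀ n ∈ A, n ∈ E) → (∀ n ∈ A, ‖φ n‖ ≤ b) → 0 ≤ b →
  ∃ g : L1, ‖g‖ ≤ C * b ∧ (∀ n ∈ A, coeff g n = φ n) ∧ ∀ n ∈ E, n ∉ A → coeff g n = 0

def T_SIB : Prop := ∀ E : Set ℤ, Sidon E → ∃ C : ℝ, 0 < C ∧ ∀ (φ : ℤ → ℂ) (b : ℝ), 0 < b →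
  (∀ n, ‖φ n‖ ≤ b) → (∀ ε : ℝ, 0 < ε → {n | ε ≤ ‖φ n‖}.Finite) →
  ∃ g : L1, ‖g‖ ≤ C * b ∧ ∀ n ∈ E, coeff g n = φ n

def T_SIC : Prop := ∀ r : Setoid ℤ, Sidon {n | ∃ m, m ≠ n ∧ r n m} → HasSynthesis r

/-! ## G. The theorem -/

def T_MAIN : Prop :=
  (∀ (r : Setoid ℤ) (C : ℝ), Dense r C → HasSynthesis r) ∧
  (∃ r : Setoid ℤ, (∀ n, {m | r n m}.Finite) ∧ ¬ HasSynthesis r ∧
    ∃ x0 : ℝ, ∀ x : ℝ, x0 ≤ x → ∃ M : ℕ, Inv r M ∧ x < M ∧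
      (M : ℝ) ≤ x + x * Real.log (Real.log x) ^ 10 / Real.log x) ∧
  ∀ r : Setoid ℤ, Sidon {n | ∃ m, m ≠ n ∧ r n m} → HasSynthesis r

end

end Pool.Agent.H95.ILV
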